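import Pool.Agent.J4.H18.CV.D

/-!
# Vanishing theorem for branched cyclic covers of arbitrary curves, with blocks of branch points
-/

set_option autoImplicit false

open FF IntermediateField Pool.Agent.W603.LV Pool.Agent.W603.PV Pool.Agent.J4.H17.ZC
  Pool.Agent.N162.CV Pool.Agent.N75.CV Pool.Agent.J4.H82.PV Pool.Agent.J4.H18.CV

namespace Pool.Agent.J4.H64.BC

variable {k : Type} [Field k] [CharZero k] [IsAlgClosed k] {F K : Type} [Field F]
  [Field K] [Algebra k F] [Algebra k K] [Algebra F K] [IsScalarTower k F K] [IsFF k F] [IsFF k K]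
  [FiniteDimensional F K] [IsGalois F K]

/-- The number of the indices which are neither representatives of a block nor `j1`. -/
theorem card_pairs {Br Q : Type} [Fintype Br] [DecidableEq Br] [Fintype Q] [DecidableEq Q]
    (blk : Br → Q) (rep : Q → Br) (hrep : ∀ q, blk (rep q) = q) (j1 : Br)
    (hj1 : rep (blk j1) ≠ j1) :
    Fintype.card {j : Br // rep (blk j) ≠ j ∧ j ≠ j1} + Fintype.card Q + 1 = Fintype.card Br := by
  classical
  have h1 : Fintype.card Q = (Finset.univ.image rep).card := by
    rw [Finset.card_image_of_injective _ (fun a b h => by rw [← hrep a, h, hrep]),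
      Finset.card_univ]
  have h2 : Fintype.card {j : Br // rep (blk j) ≠ j ∧ j ≠ j1} =
      (Finset.univ.filter fun j : Br => rep (blk j) ≠ j ∧ j ≠ j1).card := Fintype.card_subtype _
  have h3 : (Finset.univ : Finset Br) = insert j1 ((Finset.univ.image rep) ∪
      (Finset.univ.filter fun j : Br => rep (blk j) ≠ j ∧ j ≠ j1)) := by
    ext j
    simp only [Finset.mem_univ, Finset.mem_insert, Finset.mem_union, Finset.mem_image,
      Finset.mem_filter, true_and, true_iff]
    by_cases h : j = j1
    · exact Or.inl h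
    · right
      by_cases h' : rep (blk j) = j
      · exact Or.inl ⟨_, h'⟩
      · exact Or.inr ⟨h', h⟩
  have h4 : Disjoint (Finset.univ.image rep)
      (Finset.univ.filter fun j : Br => rep (blk j) ≠ j ∧ j ≠ j1) := by
    rw [Finset.disjoint_left]
    intro j hj hj'
    obtain ⟨q, -, rfl⟩ := Finset.mem_image.1 hj
    exact (Finset.mem_filter.1 hj').2.1 (by rw [hrep])
  have h5 : j1 ∉ (Finset.univ.image rep) ∪
      (Finset.univ.filter fun j : Br => rep (blk j) ≠ j ∧ j ≠ j1) := by
    rw [Finset.mem_union, not_or]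
    constructor
    · intro h
      obtain ⟨q, -, hq⟩ := Finset.mem_image.1 h
      apply hj1
      rw [← hq, hrep]
    · intro h
      exact (Finset.mem_filter.1 h).2.2 rfl
  have h6 : Fintype.card Br = (Finset.univ : Finset Br).card := rfl
  rw [h6, h3, Finset.card_insert_of_notMem h5, Finset.card_union_of_disjoint h4, ← h1, ← h2]
  omega

/-- Vanishing for a cyclic cover whose branch points are divided into blocks. -/
theorem vanish_blocks {w : K} (hw0 : w ≠ 0) {d : ℕ} (hd : 0 < d) {δ : F}
    (hwd : w ^ d = algebraMap F K δ)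
    (u : (K ≃ₐ[F] K) → k) (hu : ∀ g : K ≃ₐ[F] K, g w = algebraMap k K (u g) * w)
    {g' : ℕ} (hg' : HasGenus k F g') {T : Type} [Fintype T] [DecidableEq T]
    (Ψ : (T → Place k K) → k) (hk : Kill ((curve k K).pow T) Ψ)
    (hsym : ∀ (x : T → Place k K) (π : Equiv.Perm T), Ψ (fun i => x (π i)) = Ψ x)
    (heq : ∀ (x : T → Place k K) (g : T → (K ≃ₐ[F] K)),
      Ψ (fun i => actF (g i) (x i)) = (∏ i, u (g i)) * Ψ x)
    {Br Q : Type} [Fintype Br] [DecidableEq Br] [Fintype Q] [DecidableEq Q]
    (b : Br → Place k F) (hbinj : Function.Injective b)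
    (hB : ∀ v, (∀ j, b j ≠ v) → (d : ℤ) ∣ v.ord δ)
    (blk : Br → Q) (rep : Q → Br) (hrep : ∀ q, blk (rep q) = q) (j1 : Br)
    (hj1 : rep (blk j1) ≠ j1)
    (hsum : ∀ q, (d : ℤ) ∣ ∑ j, if blk j = q then (b j).ord δ else 0)
    (hz : ∀ j, ∀ x : T → Place k K, (∃ i, under F (x i) = b j) → Ψ x = 0)
    (hT : g' + Fintype.card Br ≤ Fintype.card T + Fintype.card Q) (s : T → Place k K) :
    Ψ s = 0 := by
  classical
  by_cases hsb : ∃ j i, under F (s i) = b j
  · obtain ⟨j, hj⟩ := hsb
    exact hz j s hj
  push Not at hsb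
  have hδ0 : δ ≠ 0 := by
    rintro rfl
    rw [map_zero] at hwd
    exact hw0 (pow_eq_zero_iff hd.ne' |>.1 hwd)
  -- the divisor
  set E : Place k F →₀ ℤ := tot fun i => under F (s i) with hE
  have hEb : ∀ j, E (b j) = 0 := by
    intro j
    rw [hE, tot_apply, Nat.cast_eq_zero, Finset.card_eq_zero, Finset.filter_eq_empty_iff]
    intro i _ h
    exact hsb j i h
  have hEd : ddeg E = Fintype.card T := by rw [ddeg_eq_dg, hE, dg_tot]
  have hell := ell_lower hg' E
  have hcard := card_pairs blk rep hrep j1 hj1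
  obtain ⟨h, hhE, hh, hhb⟩ := exists_paired (J := {j : Br // rep (blk j) ≠ j ∧ j ≠ j1}) E
    (fun j => b j.1) (fun j => b (rep (blk j.1))) (fun j => (hEb _).le) (fun j => (hEb _).le) (by
      omega)
  have hh0 : h ≠ 0 := by
    rintro rfl
    exact hh isAlgebraic_zero
  have hhP := hhE.resolve_left hh0
  -- the rational function field
  let t : k⟮h⟯ := AdjoinSimple.gen k h
  have hht : algebraMap k⟮h⟯ F t = h := rfl
  have ht : Transcendental k t := by
    rw [← transcendental_algebraMap_iff (algebraMap k⟮h⟯ F).injective]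
    exact hh
  have hr : Module.finrank k⟮t⟯ k⟮h⟯ = 1 := finrank_gen h
  have hfd : FiniteDimensional k⟮t⟯ k⟮h⟯ := Module.finite_of_finrank_pos (by rw [hr]; exact one_pos)
  have : IsFF k k⟮h⟯ := IsFF.of_finite ht hfd
  have : FiniteDimensional k⟮h⟯ F := IsFF.finite hh
  have : IsScalarTower k⟮h⟯ F K := inferInstance
  have : IsScalarTower k k⟮h⟯ K := inferInstance
  have : FiniteDimensional k⟮h⟯ K := FiniteDimensional.trans k⟮h⟯ F K
  -- the values at the branch points
  have hreg : ∀ j, ∃ c : k, Ge (b j) 1 (h - algebraMap k F c) := by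
    intro j
    apply Pool.Agent.W603.LV.exists_const
    right
    have := hhP (b j)
    rw [hEb] at this
    omega
  have hne : ∀ c : k, h - algebraMap k F c ≠ 0 := fun c hc => by
    have := transc_sub_const hh c
    rw [hc] at this
    exact this isAlgebraic_zero
  choose val hval using hreg
  obtain ⟨pt, oo, hp⟩ := exists_ratPl t ht hr
  have hpt : ∀ (v : Place k F) (c : k), Ge v 1 (h - algebraMap k F c) → under k⟮h⟯ v = pt c := by
    intro v c hvc
    apply hp.uniq
    have h1 := hvc.resolve_left (hne c)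
    have h2 : h - algebraMap k F c = algebraMap k⟮h⟯ F (t - algebraMap k k⟮h⟯ c) := by
      rw [map_sub, hht, ← IsScalarTower.algebraMap_apply]
    rw [h2, ord_under] at h1
    have h3 : (0 : ℤ) < ram k⟮h⟯ v := by exact_mod_cast (ram_spec (F := k⟮h⟯) v).1
    by_contra hcon
    push Not at hcon
    nlinarith
  -- the places below depend on the block only
  have hblk : ∀ j, j ≠ j1 → under k⟮h⟯ (b j) = under k⟮h⟯ (b (rep (blk j))) := by
    intro j hj
    by_cases hj' : rep (blk j) = j
    · rw [hj']
    · obtain ⟨a, ha, ha'⟩ := hhb ⟨j, hj', hj⟩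
      rw [hpt _ a ha, hpt _ a ha']
  refine core' hw0 hd hwd u hu ht hr Ψ hk hsym heq s ?_ (val j1) (val (rep (blk j1))) (b j1)
    (hz _) ?_ ((b j1).ord δ) ?_
  · intro v
    rw [polar_apply, hht]
    have h1 := hhP v
    have h2 : 0 ≤ E v := tot_nonneg _ v
    change _ ≤ E v
    exact max_le (by omega) h2
  · rw [map_sub, hht, ← IsScalarTower.algebraMap_apply]
    have := (hval j1).resolve_left (hne _)
    omega
  · intro v
    have h1 := norm_ord (F0 := k⟮h⟯) hδ0 (d := d) (Finset.univ.image b) (by
      intro v hv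
      refine hB v fun j hj => hv ?_
      rw [Finset.mem_image]
      exact ⟨j, Finset.mem_univ _, hj⟩) v
    rw [Finset.sum_image (fun x _ y _ hxy => hbinj hxy)] at h1
    have h2 : ∑ j, (if under k⟮h⟯ (b j) = v then (b j).ord δ else 0) =
        (∑ q, if under k⟮h⟯ (b (rep q)) = v then
          ∑ j, (if blk j = q then (b j).ord δ else 0) else 0) +
        (b j1).ord δ * ((if under k⟮h⟯ (b j1) = v then 1 else 0) -
          (if under k⟮h⟯ (b (rep (blk j1))) = v then 1 else 0)) := by
      have h3 : ∀ j, (if under k⟮h⟯ (b j) = v then (b j).ord δ else 0) =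
          (if under k⟮h⟯ (b (rep (blk j))) = v then (b j).ord δ else 0) +
          (if j = j1 then (b j1).ord δ * ((if under k⟮h⟯ (b j1) = v then 1 else 0) -
          (if under k⟮h⟯ (b (rep (blk j1))) = v then 1 else 0)) else 0) := by
        intro j
        by_cases hj : j = j1
        · subst hj
          rw [if_pos rfl]
          split_ifs <;> ring
        · rw [if_neg hj, hblk j hj, add_zero]
      rw [Finset.sum_congr rfl fun j _ => h3 j, Finset.sum_add_distrib, Finset.sum_ite_eq' _ j1]
      simp only [Finset.mem_univ, if_true]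
      congr 1
      have h4 : ∀ j, (if under k⟮h⟯ (b (rep (blk j))) = v then (b j).ord δ else 0) =
          ∑ q, if blk j = q then (if under k⟮h⟯ (b (rep q)) = v then (b j).ord δ else 0)
            else 0 := by
        intro j
        rw [Finset.sum_ite_eq]
        simp
      rw [Finset.sum_congr rfl fun j _ => h4 j, Finset.sum_comm]
      refine Finset.sum_congr rfl fun q _ => ?_
      split_ifs with hq
      · rfl
      · simp
    rw [h2, hpt _ _ (hval j1), hpt _ _ (hval (rep (blk j1)))] at h1
    have h5 : (d : ℤ) ∣ ∑ q, if under k⟮h⟯ (b (rep q)) = v then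
          ∑ j, (if blk j = q then (b j).ord δ else 0) else 0 := by
      refine Finset.dvd_sum fun q _ => ?_
      split_ifs
      · exact hsum q
      · exact dvd_zero _
    rw [hp.div, hp.div]
    simp only [Finsupp.single_apply]
    have h6 := h1.add h5
    have h7 : ∀ (N S y o : ℤ) (p q : Prop) [Decidable p] [Decidable q] (i1 : Decidable p)
        (i2 : Decidable q), N - (S + y * ((@ite ℤ p i1 1 0) - (@ite ℤ q i2 1 0))) + S =
        N - y * (((if p then 1 else 0) - o) - ((if q then 1 else 0) - o)) := by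
      intro N S y o p q _ _ i1 i2
      split_ifs <;> ring
    rw [h7 _ _ _ (if oo = v then 1 else 0)] at h6
    exact h6

end Pool.Agent.J4.H64.BC
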