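import Mathlib

/-!
# Fourier coefficients of functions on a cyclic group
-/

set_option autoImplicit false

namespace Pool.Agent.J4.H64.BC

/-- The sums of the function over the cosets of the subgroups of prime order are zero: only the
primitive characters occur in the function. -/
def Prim (m : ℕ) (c : ZMod m → ℤ) : Prop :=
  ∀ q : ℕ, q.Prime → q ∣ m → ∀ s : ZMod m, ∑ i ∈ Finset.range q, c (s + i * (m / q : ℕ)) = 0

section

variable {k : Type} [Field k] {m : ℕ} [NeZero m] {ζ : k}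

/-- the character of the group of residues given by a root of unity -/
noncomputable def ch (ζ : k) (s : ZMod m) : k := ζ ^ s.val

theorem ch_add (hζ : ζ ^ m = 1) (s t : ZMod m) : ch ζ (s + t) = ch ζ s * ch ζ t := by
  unfold ch
  rw [ZMod.val_add, ← pow_add]
  exact (pow_eq_pow_mod _ hζ).symm

theorem ch_zero (ζ : k) : ch (m := m) ζ 0 = 1 := by
  unfold ch
  rw [ZMod.val_zero, pow_zero]

theorem ch_ne (hζ : ζ ^ m = 1) (s : ZMod m) : ch ζ s ≠ 0 := by
  intro h
  have h1 := ch_add hζ s (-s)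
  rw [add_neg_cancel, ch_zero, h, zero_mul] at h1
  exact one_ne_zero h1

theorem ch_nat (hζ : ζ ^ m = 1) (n : ℕ) : ch ζ (n : ZMod m) = ζ ^ n := by
  unfold ch
  rw [ZMod.val_natCast]
  exact (pow_eq_pow_mod _ hζ).symm

/-- orthogonality -/
theorem ch_sum (hζ : IsPrimitiveRoot ζ m) (t : ZMod m) :
    ∑ a : ZMod m, ch ζ (a * t) = if t = 0 then (m : k) else 0 := by
  have h1 := hζ.pow_eq_one
  split_ifs with h
  · subst h
    rw [Finset.sum_congr rfl fun a _ => by rw [mul_zero, ch_zero], Finset.sum_const,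
      Finset.card_univ, ZMod.card, nsmul_eq_mul, mul_one]
  · have h2 : ∑ a : ZMod m, ch ζ (a * t) = ch ζ t * ∑ a : ZMod m, ch ζ (a * t) := by
      rw [Finset.mul_sum]
      refine (Fintype.sum_equiv (Equiv.addRight (1 : ZMod m)) _ _ fun a => ?_).symm
      change ch ζ t * ch ζ (a * t) = ch ζ ((a + 1) * t)
      rw [add_mul, one_mul, ch_add h1, mul_comm]
    have h3 : ch ζ t ≠ 1 := by
      intro h4
      apply h
      have h5 : m ∣ t.val := hζ.dvd_of_pow_eq_one _ h4
      have h6 := ZMod.val_lt t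
      have h7 : t.val = 0 := Nat.eq_zero_of_dvd_of_lt h5 h6
      exact (ZMod.val_eq_zero t).1 h7
    have h4 : (1 - ch ζ t) * ∑ a : ZMod m, ch ζ (a * t) = 0 := by linear_combination h2
    exact (mul_eq_zero.1 h4).resolve_left (sub_ne_zero.2 (Ne.symm h3))

/-- the Fourier coefficient -/
noncomputable def fc (ζ : k) (c : ZMod m → ℤ) (a : ZMod m) : k := ∑ s, (c s : k) * ch ζ (-(a * s))

theorem fc_inv (hζ : IsPrimitiveRoot ζ m) (c : ZMod m → ℤ) (s : ZMod m) :
    (m : k) * c s = ∑ a, fc ζ c a * ch ζ (a * s) := by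
  have h1 := hζ.pow_eq_one
  unfold fc
  have h2 : ∀ a : ZMod m, (∑ t, (c t : k) * ch ζ (-(a * t))) * ch ζ (a * s) =
      ∑ t, (c t : k) * ch ζ (a * (s - t)) := by
    intro a
    rw [Finset.sum_mul]
    refine Finset.sum_congr rfl fun t _ => ?_
    rw [mul_assoc, ← ch_add h1]
    congr 2
    ring
  rw [Finset.sum_congr rfl fun a _ => h2 a, Finset.sum_comm]
  have h3 : ∀ t : ZMod m, ∑ a, (c t : k) * ch ζ (a * (s - t)) =
      if t = s then (m : k) * c s else 0 := by
    intro t
    rw [← Finset.mul_sum, ch_sum hζ]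
    by_cases h : s = t
    · subst h
      rw [if_pos (sub_self _), if_pos rfl, mul_comm]
    · rw [if_neg (fun h' => h (sub_eq_zero.1 h')), if_neg (Ne.symm h), mul_zero]
  rw [Finset.sum_congr rfl fun t _ => h3 t, Finset.sum_ite_eq' Finset.univ s]
  simp

/-- The Fourier coefficients at the elements which are not units vanish. -/
theorem fc_zero [CharZero k] (hζ : ζ ^ m = 1) {c : ZMod m → ℤ} (hc : Prim m c) {a : ZMod m}
    (ha : ¬ IsUnit a) : fc ζ c a = 0 := by
  have h0 : ¬ a.val.Coprime m := by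
    intro h
    apply ha
    have h1 := (ZMod.unitOfCoprime a.val h).isUnit
    rw [ZMod.coe_unitOfCoprime, ZMod.natCast_zmod_val] at h1
    exact h1
  obtain ⟨q, hq, hqa, hqm⟩ := Nat.Prime.not_coprime_iff_dvd.1 h0
  obtain ⟨r, hr⟩ := hqm
  have hq0 : 0 < q := hq.pos
  have hmq : m / q = r := by rw [hr, Nat.mul_div_cancel_left _ hq0]
  have har : a * ((r : ℕ) : ZMod m) = 0 := by
    obtain ⟨b, hb⟩ := hqa
    have h1 : a = ((q * b : ℕ) : ZMod m) := by rw [← hb, ZMod.natCast_zmod_val]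
    rw [h1, ← Nat.cast_mul]
    have h2 : q * b * r = m * b := by rw [hr]; ring
    rw [h2, Nat.cast_mul, ZMod.natCast_self, zero_mul]
  have h1 : (q : k) * fc ζ c a = ∑ s : ZMod m, (∑ i ∈ Finset.range q,
      (c (s + i * (m / q : ℕ)) : k)) * ch ζ (-(a * s)) := by
    have h2 : ∀ i ∈ Finset.range q, fc ζ c a =
        ∑ s : ZMod m, (c (s + i * (m / q : ℕ)) : k) * ch ζ (-(a * s)) := by
      intro i _
      unfold fc
      refine (Fintype.sum_equiv (Equiv.addRight ((i : ZMod m) * ((m / q : ℕ) : ZMod m))) _ _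
        fun s => ?_).symm
      change _ = (c (s + (i : ZMod m) * ((m / q : ℕ) : ZMod m)) : k) *
        ch ζ (-(a * (s + (i : ZMod m) * ((m / q : ℕ) : ZMod m))))
      congr 2
      rw [hmq, mul_add, mul_left_comm, har, mul_zero, add_zero]
    have h3 : (q : k) * fc ζ c a = ∑ i ∈ Finset.range q, fc ζ c a := by
      rw [Finset.sum_const, Finset.card_range, nsmul_eq_mul]
    rw [h3, Finset.sum_congr rfl h2, Finset.sum_comm]
    exact Finset.sum_congr rfl fun s _ => by rw [Finset.sum_mul]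
  have h2 : ∀ s : ZMod m, (∑ i ∈ Finset.range q, (c (s + i * (m / q : ℕ)) : k)) = 0 := by
    intro s
    have h3 := hc q hq ⟨r, hr⟩ s
    exact_mod_cast congrArg (Int.cast : ℤ → k) h3
  rw [Finset.sum_congr rfl fun s _ => by rw [h2 s, zero_mul], Finset.sum_const_zero] at h1
  have h3 : (q : k) ≠ 0 := by exact_mod_cast hq.ne_zero
  exact (mul_eq_zero.1 h1).resolve_left h3

/-- The inversion formula with a sum over the units. -/
theorem fc_units [CharZero k] (hζ : IsPrimitiveRoot ζ m) {c : ZMod m → ℤ} (hc : Prim m c)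
    (s : ZMod m) :
    (m : k) * c s = ∑ a : (ZMod m)ˣ, fc ζ c (a : ZMod m) * ch ζ ((a : ZMod m) * s) := by
  classical
  rw [fc_inv hζ]
  have h1 : ∑ a : (ZMod m)ˣ, fc ζ c (a : ZMod m) * ch ζ ((a : ZMod m) * s) =
      ∑ a ∈ Finset.univ.image (Units.val : (ZMod m)ˣ → ZMod m), fc ζ c a * ch ζ (a * s) := by
    rw [Finset.sum_image (fun a _ b _ h => Units.ext h)]
  rw [h1]
  symm
  refine Finset.sum_subset (Finset.subset_univ _) fun a _ ha => ?_
  rw [fc_zero hζ.pow_eq_one hc, zero_mul]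
  rintro ⟨b, rfl⟩
  exact ha (Finset.mem_image.2 ⟨b, Finset.mem_univ _, rfl⟩)

end

end Pool.Agent.J4.H64.BC
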