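import Pool.Agent.J4.H64.BC.Van
import Pool.Agent.J4.H64.BC.Fou
import Pool.Agent.J4.H82.CC.N
import Pool.Agent.J4.H61.BC.Part

/-!
# The cycles with primitive characters
-/

set_option autoImplicit false

open FF IntermediateField Equiv Pool.Agent.W603.LV Pool.Agent.W603.PV Pool.Agent.W619.PQ
  Pool.Agent.J4.H17.ZC Pool.Agent.N162.CV Pool.Agent.N75.CV Pool.Agent.J4.H82.PV
  Pool.Agent.J4.H18.CV Pool.Agent.J4.H82.CC

namespace Pool.Agent.J4.H64.BC

section

variable {k : Type} [Field k] [CharZero k] [IsAlgClosed k] {K : Type} [Field K] [Algebra k K]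
  [IsFF k K] {H : Type} [Group H] [Fintype H] (β : H →* (K ≃ₐ[k] K)) (u : H →* kˣ)

/-- The blocks of the branch points. -/
theorem van_part {g : ℕ} (hg : HasGenus k (fixedField β.range) g)
    [IsFF k (fixedField β.range)] {w : K} (hw0 : w ≠ 0)
    (hw : ∀ h, β h w = algebraMap k K (u h : kˣ) * w) {m : ℕ} (hm : 0 < m)
    {δ : fixedField β.range} (hwm : w ^ m = algebraMap (fixedField β.range) K δ)
    (S : Finset (Place k (fixedField β.range))) (hS : S.Nonempty)
    (hB : ∀ v, v ∈ S ↔ ¬ (m : ℤ) ∣ v.ord δ) {Q : Type} [Fintype Q] [DecidableEq Q]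
    (b : Place k (fixedField β.range) → Q) (hb : ∀ q, ∃ v ∈ S, b v = q)
    (hsum : ∀ q, (m : ℤ) ∣ ∑ v ∈ S, if b v = q then v.ord δ else 0)
    {T : Type} [Fintype T] [DecidableEq T]
    (hT : g + S.card ≤ Fintype.card T + Fintype.card Q)
    (Λ : (T → Place k K) → k) (hΛ : Kill ((curve k K).pow T) Λ) (s : T → Place k K) :
    ∑ σ : Perm T, ∑ j : T → H, (∏ i, (((u (j i))⁻¹ : kˣ) : k)) *
      Λ (fun i => act (β (j i)) (s (σ i))) = 0 := by
  classical
  obtain ⟨v0, hv0⟩ := hS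
  have i2 : Nonempty {v // v ∈ S} := ⟨⟨v0, hv0⟩⟩
  have h := van_blocks β u hg hw0 hw hm hwm (Br := {v // v ∈ S}) (Q := Q)
    (fun j => j.1) Subtype.val_injective (fun v => by
      constructor
      · intro h j hj
        exact (hB v).1 (hj ▸ j.2) h
      · intro h
        by_contra hcon
        exact h ⟨v, (hB v).2 hcon⟩ rfl) (fun j => b j.1) (by
      intro q
      obtain ⟨v, hv, hq⟩ := hb q
      exact ⟨⟨v, hv⟩, hq⟩) (by
      intro q
      rw [Finset.sum_coe_sort S
        (fun v : Place k (fixedField β.range) => if b v = q then v.ord δ else 0)]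
      exact hsum q) (T := T) (by rw [Fintype.card_coe]; exact hT) Λ hΛ s
  rw [← h]
  exact Finset.sum_congr rfl fun σ _ => (ML_exu β u Λ fun i => s (σ i)).symm

end

section

variable {k : Type} [Field k] [CharZero k] [IsAlgClosed k] {K : Type} [Field K] [Algebra k K]
  [IsFF k K] {H : Type} [Group H] [Fintype H] (β : H →* (K ≃ₐ[k] K))

/-- The functional vanishes on the cycles with primitive characters. -/
theorem van_prim {m : ℕ} [NeZero m] {ζ : k} (hζ : IsPrimitiveRoot ζ m)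
    (χ : H →* Multiplicative (ZMod m)) {g : ℕ} (hg : HasGenus k (fixedField β.range) g)
    [IsFF k (fixedField β.range)] {w : K} (hw0 : w ≠ 0)
    (hw : ∀ h, β h w = algebraMap k K (ζ ^ (Multiplicative.toAdd (χ h)).val) * w)
    {δ : fixedField β.range} (hwm : w ^ m = algebraMap (fixedField β.range) K δ)
    (S : Finset (Place k (fixedField β.range))) (hS : S.Nonempty)
    (hB : ∀ v, v ∈ S ↔ ¬ (m : ℤ) ∣ v.ord δ) {Q : Type} [Fintype Q] [DecidableEq Q]
    (b : Place k (fixedField β.range) → Q) (hb : ∀ q, ∃ v ∈ S, b v = q)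
    (hsum : ∀ q, (m : ℤ) ∣ ∑ v ∈ S, if b v = q then v.ord δ else 0)
    {T : Type} [Fintype T] [DecidableEq T]
    (hT : g + S.card ≤ Fintype.card T + Fintype.card Q) {c : ZMod m → ℤ} (hc : Prim m c)
    (Λ : (T → Place k K) → k) (hΛ : Kill ((curve k K).pow T) Λ) (s : T → Place k K) :
    ∑ σ : Perm T, ∑ j : T → H, (c (∑ i, Multiplicative.toAdd (χ (j i))) : k) *
      Λ (fun i => act (β (j i)) (s (σ i))) = 0 := by
  have hm : 0 < m := Nat.pos_of_ne_zero (NeZero.ne m)
  let u : kˣ := (hζ.isUnit (NeZero.ne m)).unit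
  have huζ : (u : k) = ζ := rfl
  have hu : u ^ m = 1 := by
    ext
    rw [Units.val_pow_eq_pow_val, huζ, hζ.pow_eq_one, Units.val_one]
  let ψ : H →* kˣ := (zhom u hu).comp χ
  have hψ : ∀ h, ((ψ h : kˣ) : k) = ζ ^ (Multiplicative.toAdd (χ h)).val := by
    intro h
    change ((zhom u hu (χ h) : kˣ) : k) = _
    rw [zhom_apply, Units.val_pow_eq_pow_val, huζ]
  -- the vanishing for every unit
  have key : ∀ a : (ZMod m)ˣ, ∑ σ : Perm T, ∑ j : T → H,
      ch ζ (-((a : ZMod m) * ∑ i, Multiplicative.toAdd (χ (j i)))) *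
      Λ (fun i => act (β (j i)) (s (σ i))) = 0 := by
    intro a
    set n : ℕ := (a : ZMod m).val with hn
    have hcop : n.Coprime m := ZMod.val_coe_unit_coprime a
    have hn0 : ∀ z : ℤ, (m : ℤ) ∣ n * z ↔ (m : ℤ) ∣ z := by
      intro z
      constructor
      · intro h
        have h1 : IsCoprime (m : ℤ) n := by
          rw [Nat.isCoprime_iff_coprime]
          exact hcop.symm
        exact h1.dvd_of_dvd_mul_left h
      · exact fun h => h.mul_left _
    have hord : ∀ v : Place k (fixedField β.range), v.ord (δ ^ n) = n * v.ord δ := by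
      intro v
      rw [v.ord_pow]
    have h := van_part β (ψ ^ n) hg (w := w ^ n) (pow_ne_zero _ hw0) (fun h => by
      rw [map_pow, hw, mul_pow, MonoidHom.pow_apply, Units.val_pow_eq_pow_val, hψ, map_pow
        (algebraMap k K) _ n]) hm (δ := δ ^ n)
      (by rw [map_pow, ← hwm, ← pow_mul, ← pow_mul, mul_comm]) S hS (fun v => by
        rw [hB, hord, hn0]) b hb (fun q => by
        have h1 : ∀ v ∈ S, (if b v = q then v.ord (δ ^ n) else 0) =
            n * (if b v = q then v.ord δ else 0) := by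
          intro v _
          rw [hord]
          split_ifs <;> simp
        rw [Finset.sum_congr rfl h1, ← Finset.mul_sum]
        exact (hsum q).mul_left _) hT Λ hΛ s
    rw [← h]
    refine Finset.sum_congr rfl fun σ _ => Finset.sum_congr rfl fun j _ => ?_
    congr 1
    have h1 := hζ.pow_eq_one
    have h2 : ch ζ ((a : ZMod m) * ∑ i, Multiplicative.toAdd (χ (j i))) =
        ∏ i, (((ψ ^ n) (j i) : kˣ) : k) := by
      have h3 : (a : ZMod m) * ∑ i, Multiplicative.toAdd (χ (j i)) =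
          ((n * ∑ i, (Multiplicative.toAdd (χ (j i))).val : ℕ) : ZMod m) := by
        push_cast
        rw [hn, ZMod.natCast_zmod_val]
        congr 1
        exact Finset.sum_congr rfl fun i _ => (ZMod.natCast_zmod_val _).symm
      rw [h3, ch_nat h1, Finset.mul_sum, ← Finset.prod_pow_eq_pow_sum]
      refine Finset.prod_congr rfl fun i _ => ?_
      rw [MonoidHom.pow_apply, Units.val_pow_eq_pow_val, hψ, ← pow_mul, mul_comm]
    have h4 : ch ζ (-((a : ZMod m) * ∑ i, Multiplicative.toAdd (χ (j i)))) *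
        ch ζ ((a : ZMod m) * ∑ i, Multiplicative.toAdd (χ (j i))) = 1 := by
      rw [← ch_add h1, neg_add_cancel, ch_zero]
    rw [h2] at h4
    rw [eq_inv_of_mul_eq_one_left h4, ← Finset.prod_inv_distrib]
    exact Finset.prod_congr rfl fun i _ => (Units.val_inv_eq_inv_val _).symm
  have hm0 : (m : k) ≠ 0 := by exact_mod_cast hm.ne'
  refine (mul_eq_zero.1 (?_ : (m : k) * _ = 0)).resolve_left hm0
  have hc' : ∀ z : ZMod m, (m : k) * c z =
      ∑ a : (ZMod m)ˣ, fc ζ c (-(a : ZMod m)) * ch ζ (-((a : ZMod m) * z)) := by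
    intro z
    rw [fc_units hζ hc z]
    refine (Fintype.sum_equiv (Equiv.neg (ZMod m)ˣ) _ _ fun a => ?_).symm
    rw [Equiv.neg_apply, Units.val_neg, neg_mul]
  rw [Finset.mul_sum]
  have h1 : ∀ σ : Perm T, (m : k) * ∑ j : T → H,
      (c (∑ i, Multiplicative.toAdd (χ (j i))) : k) * Λ (fun i => act (β (j i)) (s (σ i))) =
      ∑ a : (ZMod m)ˣ, fc ζ c (-(a : ZMod m)) * ∑ j : T → H,
        ch ζ (-((a : ZMod m) * ∑ i, Multiplicative.toAdd (χ (j i)))) *
        Λ (fun i => act (β (j i)) (s (σ i))) := by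
    intro σ
    rw [Finset.mul_sum]
    have h2 : ∀ j : T → H, (m : k) * ((c (∑ i, Multiplicative.toAdd (χ (j i))) : k) *
        Λ (fun i => act (β (j i)) (s (σ i)))) = ∑ a : (ZMod m)ˣ, fc ζ c (-(a : ZMod m)) *
        (ch ζ (-((a : ZMod m) * ∑ i, Multiplicative.toAdd (χ (j i)))) *
        Λ (fun i => act (β (j i)) (s (σ i)))) := by
      intro j
      rw [← mul_assoc, hc', Finset.sum_mul]
      exact Finset.sum_congr rfl fun a _ => mul_assoc _ _ _
    rw [Finset.sum_congr rfl fun j _ => h2 j, Finset.sum_comm]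
    exact Finset.sum_congr rfl fun a _ => (Finset.mul_sum _ _ _).symm
  rw [Finset.sum_congr rfl fun σ _ => h1 σ, Finset.sum_comm]
  refine Finset.sum_eq_zero fun a _ => ?_
  rw [← Finset.mul_sum, key a, mul_zero]

end

/-- The number of the parts and the residues. -/
theorem bound_of {ι : Type} {m g n : ℕ} (hm : 1 < m) (S : Finset ι) (f : ι → ℤ)
    (hf : ∀ i ∈ S, ¬ (m : ℤ) ∣ f i)
    (hn : ∀ j : ℕ, j.Coprime m → (m : ℤ) * g + ∑ i ∈ S, (j * f i) % (m : ℤ) ≤ m * n) (p : ℕ)
    (hp : ∃ j : ℕ, j.Coprime m ∧ ∑ i ∈ S, (j * f i) % (m : ℤ) ≤ m * p) :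
    g + S.card ≤ n + p := by
  obtain ⟨j, hj, hp⟩ := hp
  have h1 : ((m - 1) * j).Coprime m := by
    refine Nat.Coprime.mul_left ?_ hj
    have h2 : (m - 1).Coprime (m - 1 + 1) := by simp
    rwa [Nat.sub_add_cancel hm.le] at h2
  have h2 := hn _ h1
  have hm0 : (0 : ℤ) < m := by exact_mod_cast (by omega : 0 < m)
  have h3 : ∀ i ∈ S, (j * f i) % (m : ℤ) + (((m - 1) * j : ℕ) * f i) % (m : ℤ) = m := by
    intro i hi
    have h4 : (((m - 1) * j : ℕ) : ℤ) * f i = - (j * f i) + m * (j * f i) := by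
      push_cast [Nat.cast_sub hm.le]
      ring
    rw [h4, Int.add_mul_emod_self_left]
    have h5 : ¬ (m : ℤ) ∣ j * f i := by
      intro h
      have h6 : IsCoprime (m : ℤ) j := by
        rw [Nat.isCoprime_iff_coprime]
        exact hj.symm
      exact hf i hi (h6.dvd_of_dvd_mul_left h)
    rw [Int.neg_emod, if_neg h5, Int.natAbs_natCast]
    ring
  have h4 : ∑ i ∈ S, (j * f i) % (m : ℤ) + ∑ i ∈ S, (((m - 1) * j : ℕ) * f i) % (m : ℤ) =
      m * S.card := by
    rw [← Finset.sum_add_distrib, Finset.sum_congr rfl h3, Finset.sum_const, nsmul_eq_mul,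
      mul_comm]
  have h5 : (m : ℤ) * (g + S.card) ≤ m * (n + p) := by linarith
  have h6 := le_of_mul_le_mul_left h5 hm0
  exact_mod_cast h6

/-- A partition as a map. -/
theorem map_of_part {ι : Type} [DecidableEq ι] {m : ℕ} (S : Finset ι) (hS : S.Nonempty)
    (f : ι → ℤ) (P : Finpartition S) (hP : ∀ A ∈ P.parts, (m : ℤ) ∣ ∑ v ∈ A, f v) :
    ∃ b : ι → Fin P.parts.card, ∀ i, (∃ v ∈ S, b v = i) ∧
      (m : ℤ) ∣ ∑ v ∈ S, if b v = i then f v else 0 := by
  obtain ⟨v0, hv0⟩ := hS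
  let e : {A // A ∈ P.parts} ≃ Fin P.parts.card := P.parts.equivFin
  have hmem : ∀ v ∈ S, P.part v ∈ P.parts := fun v hv => P.part_mem.2 hv
  let b : ι → Fin P.parts.card := fun v =>
    if hv : v ∈ S then e ⟨P.part v, hmem v hv⟩ else e ⟨P.part v0, hmem v0 hv0⟩
  have hb : ∀ v ∈ S, ∀ i, b v = i ↔ v ∈ (e.symm i).1 := by
    intro v hv i
    have h1 : b v = e ⟨P.part v, hmem v hv⟩ := dif_pos hv
    rw [h1, ← P.part_eq_iff_mem (e.symm i).2, ← Equiv.eq_symm_apply, Subtype.ext_iff]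
  refine ⟨b, fun i => ⟨?_, ?_⟩⟩
  · obtain ⟨v, hv⟩ := P.nonempty_of_mem_parts (e.symm i).2
    exact ⟨v, P.le (e.symm i).2 hv, (hb v (P.le (e.symm i).2 hv) i).2 hv⟩
  · have h1 : ∑ v ∈ S, (if b v = i then f v else 0) = ∑ v ∈ (e.symm i).1, f v := by
      rw [← Finset.sum_filter]
      refine Finset.sum_congr ?_ fun _ _ => rfl
      ext v
      rw [Finset.mem_filter]
      constructor
      · exact fun h => (hb v h.1 i).1 h.2
      · exact fun h => ⟨P.le (e.symm i).2 h, (hb v (P.le (e.symm i).2 h) i).2 h⟩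
    rw [h1]
    exact hP _ (e.symm i).2

/-- The partitions for small degrees and for uniform exponents. -/
theorem part_sharp {ι : Type} [DecidableEq ι] {m : ℕ} (hm : 1 < m) (S : Finset ι) (f : ι → ℤ)
    (hf : ∀ i ∈ S, ¬ (m : ℤ) ∣ f i) (hs : (m : ℤ) ∣ ∑ i ∈ S, f i)
    (h : m ≤ 5 ∨ m = 7 ∨ ∃ (e : ℕ) (i₀ : ι), e.Coprime m ∧
      ∀ i ∈ S, i ≠ i₀ → (m : ℤ) ∣ f i - e) :
    ∃ P : Finpartition S, (∀ A ∈ P.parts, (m : ℤ) ∣ ∑ i ∈ A, f i) ∧
      ∃ j : ℕ, j.Coprime m ∧ ∑ i ∈ S, (j * f i) % (m : ℤ) ≤ m * P.parts.card := by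
  rcases h with h | h | ⟨e, i₀, he, hfe⟩
  · by_cases h5 : m = 5
    · exact Pool.Agent.J4.H61.BC.exists_partition_five h5 S f hf hs
    · obtain ⟨P, hP, hc⟩ := exists_partition (by omega) f _ S rfl hf hs
      refine ⟨P, hP, ?_⟩
      rcases min_le_iff.1 hc with h1 | h1
      · refine ⟨1, Nat.coprime_one_left m, ?_⟩
        simpa using h1
      · refine ⟨m - 1, ?_, ?_⟩
        · have h2 : (m - 1).Coprime (m - 1 + 1) := by simp
          rwa [Nat.sub_add_cancel hm.le] at h2
        · refine le_trans (le_of_eq ?_) h1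
          refine Finset.sum_congr rfl fun i _ => ?_
          have h4 : ((m - 1 : ℕ) : ℤ) * f i = - f i + m * f i := by
            push_cast [Nat.cast_sub hm.le]
            ring
          rw [h4, Int.add_mul_emod_self_left]
  · exact Pool.Agent.J4.H61.BC.exists_partition_seven h S f hf hs
  · exact Pool.Agent.J4.H61.BC.exists_partition_uniform (by omega) S f hf hs i₀ e he hfe

end Pool.Agent.J4.H64.BC
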