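import Pool.Agent.J4.H64.BC.Blk
import Pool.Agent.J4.H18.CV.G
import Pool.Agent.J4.H82.CC.K

/-!
# Isotypic parts of the zero-cycles on powers of a branched cyclic cover
-/

set_option autoImplicit false

open FF IntermediateField Equiv Pool.Agent.W603.LV Pool.Agent.W603.PV Pool.Agent.W619.PQ
  Pool.Agent.J4.H17.ZC Pool.Agent.N162.CV Pool.Agent.N75.CV Pool.Agent.J4.H82.PV
  Pool.Agent.J4.H18.CV

namespace Pool.Agent.J4.H64.BC

section van

variable {k : Type} [Field k] [CharZero k] [IsAlgClosed k] {K : Type} [Field K] [Algebra k K]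
  [IsFF k K] {H : Type} [Group H] [Fintype H] (β : H →* (K ≃ₐ[k] K)) (u : H →* kˣ)

/-- Vanishing of the symmetrized products of isotypic zero-cycles for cyclic covers whose branch
points are divided into blocks. -/
theorem van_blocks {g : ℕ} (hg : HasGenus k (fixedField β.range) g) {w : K} (hw0 : w ≠ 0)
    (hw : ∀ h, β h w = algebraMap k K (u h : kˣ) * w) {m : ℕ} (hm : 0 < m)
    {δ : fixedField β.range} (hwm : w ^ m = algebraMap (fixedField β.range) K δ)
    {Br Q : Type} [Fintype Br] [DecidableEq Br] [Fintype Q] [DecidableEq Q] [Nonempty Br]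
    (b : Br → Place k (fixedField β.range)) (hb : Function.Injective b)
    (hB : ∀ v, (m : ℤ) ∣ v.ord δ ↔ ∀ j, b j ≠ v) (blk : Br → Q) (hblk : Function.Surjective blk)
    (hsum : ∀ q, (m : ℤ) ∣ ∑ j, if blk j = q then (b j).ord δ else 0)
    {T : Type} [Fintype T] [DecidableEq T]
    (hT : g + Fintype.card Br ≤ Fintype.card T + Fintype.card Q)
    (Λ : (T → Place k K) → k) (hΛ : Kill ((curve k K).pow T) Λ) (s : T → Place k K) :
    ∑ σ : Perm T, ML Λ (fun i => exu β u (s (σ i))) = 0 := by
  classical
  have i1 : IsFF k (fixedField β.range) := isFF_fixed β.range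
  choose hh hhg using exists_elt β
  choose rep hrep using hblk
  -- a branch point which is not a representative
  obtain ⟨j1, hj1⟩ : ∃ j1, rep (blk j1) ≠ j1 := by
    by_contra hcon
    push Not at hcon
    obtain ⟨j0⟩ := ‹Nonempty Br›
    have h1 := hsum (blk j0)
    rw [Finset.sum_eq_single j0] at h1
    · rw [if_pos rfl] at h1
      exact (hB _).1 h1 j0 rfl
    · intro j _ hj
      rw [if_neg]
      intro h
      apply hj
      rw [← hcon j, h, hcon]
    · intro h
      exact absurd (Finset.mem_univ _) h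
  refine vanish_blocks (F := fixedField β.range) (K := K) hw0 hm hwm
    (fun g => ((u (hh g) : kˣ) : k)) (fun g => by rw [hhg, hw]) hg (SP (exu β u) Λ)
    (SP_kill (exu_regE β u) hΛ) (SP_sym (exu β u) Λ) ?_ b hb (fun v hv => (hB v).2 hv)
    blk rep hrep j1 hj1 hsum ?_ hT s
  · intro x g
    exact SP_smul Λ fun i => by rw [actF_eq β (hhg (g i)), exu_act]
  · intro j x hx
    obtain ⟨i, hi⟩ := hx
    refine SP_zero Λ (i := i) ?_
    by_contra hne
    have h1 := dvd_of_stab β u hw0 hw hwm (x i) (fun h hP => by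
      by_contra hu
      exact hne (exu_zero β u hP hu))
    rw [hi] at h1
    exact (hB _).1 h1 j rfl

end van

section expand

variable {k : Type} [Field k] {K : Type} [Field K] [Algebra k K] {H : Type} [Group H] [Fintype H]
  (β : H →* (K ≃ₐ[k] K)) (u : H →* kˣ) {T : Type} [Fintype T] [DecidableEq T]

theorem ML_exu (Λ : (T → Place k K) → k) (x : T → Place k K) :
    ML Λ (fun i => exu β u (x i)) = ∑ j : T → H, (∏ i, (((u (j i))⁻¹ : kˣ) : k)) *
      Λ (fun i => act (β (j i)) (x i)) := by
  classical
  unfold exu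
  rw [MultilinearMap.map_sum]
  refine Finset.sum_congr rfl fun j _ => ?_
  rw [MultilinearMap.map_smul_univ, ML_single, smul_eq_mul]

end expand

end Pool.Agent.J4.H64.BC
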